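import Mathlib
import Pool.Agent.Run7.h51.GehringCubes

/-!
# Explicit Gehring exponent for reverse Hölder weights

For every dimension `d` and every exponent `p > 1` there is a constant `c > 0` such that the
Gehring improvement `⟨w ^ (p + ε)⟩_Q ≤ 2 [w] ^ (p + ε) ⟨w⟩_Q ^ (p + ε)` holds for all
`0 < ε ≤ c [w] ^ (-p)`, where `[w]` is the reverse Hölder constant of exponent `p`.
-/

set_option autoImplicit false

open MeasureTheory Set Filter Topology
open scoped ENNReal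

namespace Pool.Agent.Results.MP_edcda5_an.ExplicitGehring

/-- The closed axis-parallel cube in `ℝ ^ d` with lower corner `a` and side length `s`. -/
def cube {d : ℕ} (a : Fin d → ℝ) (s : ℝ) : Set (Fin d → ℝ) := Set.Icc a (fun i => a i + s)

/-- The average `|Q|⁻¹ ∫_Q f` of a nonnegative function over a set, with values in `[0, ∞]`. -/
noncomputable def avg {d : ℕ} (f : (Fin d → ℝ) → ℝ≥0∞) (Q : Set (Fin d → ℝ)) : ℝ≥0∞ :=
  (∫⁻ x in Q, f x) / volume Q

/-- The reverse Hölder constant `[w]_{RH_p} = sup_Q ⟨w ^ p⟩_Q ^ (1 / p) ⟨w⟩_Q ⁻¹` over all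
cubes. -/
noncomputable def rh {d : ℕ} (p : ℝ) (w : (Fin d → ℝ) → ℝ) : ℝ≥0∞ :=
  ⨆ (a : Fin d → ℝ) (s : ℝ) (_ : 0 < s),
    avg (fun x => ENNReal.ofReal (w x) ^ p) (cube a s) ^ (1 / p) *
      (avg (fun x => ENNReal.ofReal (w x)) (cube a s))⁻¹

open Pool.Agent.Run7.h51.GC Pool.Agent.Run7.h51.GC.Cube

variable {d : ℕ}

lemma vol_cube (Q : Pool.Agent.Run7.h51.GC.Cube d) :
    volume (cube Q.a Q.s) = ENNReal.ofReal (Q.s ^ d) := by
  rw [← Q.vol, measure_congr Q.ae_eq]
  rfl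

lemma avg_S (f : (Fin d → ℝ) → ℝ≥0∞) (Q : Pool.Agent.Run7.h51.GC.Cube d) :
    avg f (cube Q.a Q.s) = (∫⁻ x in Q.S, f x) / ENNReal.ofReal (Q.s ^ d) := by
  unfold avg
  rw [vol_cube, setLIntegral_congr Q.ae_eq]
  rfl

lemma avg_eq {f : (Fin d → ℝ) → ℝ} (Q : Pool.Agent.Run7.h51.GC.Cube d)
    (hf : IntegrableOn f Q.S volume) (h0 : ∀ x, 0 ≤ f x) :
    avg (fun x => ENNReal.ofReal (f x)) (cube Q.a Q.s) = ENNReal.ofReal (⨍ x in Q.S, f x) := by
  rw [avg_S, ← ofReal_integral_eq_lintegral_ofReal hf (Filter.Eventually.of_forall h0),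
    ← ENNReal.ofReal_div_of_pos (pow_pos Q.pos d), setAverage_eq, Q.volr, smul_eq_mul,
    div_eq_inv_mul]

lemma vol_ne_zero (Q : Pool.Agent.Run7.h51.GC.Cube d) : ENNReal.ofReal (Q.s ^ d) ≠ 0 := by
  have := pow_pos Q.pos d
  simpa using this

theorem result (d : ℕ) (p : ℝ) (hp : 1 < p) :
    ∃ c : ℝ, c = p / (2 ^ (d + 1) * (2 * p / (p - 1)) ^ p) ∧ 0 < c ∧
      ∀ w : (Fin d → ℝ) → ℝ, LocallyIntegrable w volume → (∀ x, 0 < w x) → rh p w ≠ ⊤ →
        ∀ (a : Fin d → ℝ) (s : ℝ), 0 < s →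
          ∀ ε : ℝ, 0 < ε → ε ≤ c * (rh p w).toReal ^ (-p) →
            avg (fun x => ENNReal.ofReal (w x) ^ (p + ε)) (cube a s) ≤
              2 * rh p w ^ (p + ε) *
                avg (fun x => ENNReal.ofReal (w x)) (cube a s) ^ (p + ε) := by
  have hp1 : 0 < p - 1 := by linarith
  have hp0 : 0 < p := by linarith
  have hc0 : 0 < p / (2 ^ (d + 1) * (2 * p / (p - 1)) ^ p) := by positivity
  refine ⟨_, rfl, hc0, ?_⟩
  intro w hw hw0 hrh a s hs ε hε hεc
  set K : ℝ := (rh p w).toReal with hK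
  have hKr : rh p w = ENNReal.ofReal K := (ENNReal.ofReal_toReal hrh).symm
  have hK0 : 0 ≤ K := ENNReal.toReal_nonneg
  have h0 : ∀ x, 0 ≤ w x := fun x => (hw0 x).le
  have hpw : ∀ x, ENNReal.ofReal (w x) ^ p = ENNReal.ofReal (w x ^ p) := fun x =>
    ENNReal.ofReal_rpow_of_nonneg (h0 x) hp0.le
  -- averages of `w`
  have hbpos : ∀ Q : Pool.Agent.Run7.h51.GC.Cube d, 0 < ⨍ x in Q.S, w x := by
    intro Q
    rw [setAverage_eq, smul_eq_mul, Q.volr]
    refine mul_pos (inv_pos.mpr (pow_pos Q.pos d)) ?_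
    rw [setIntegral_pos_iff_support_of_nonneg_ae (Filter.Eventually.of_forall h0) (hiS hw Q)]
    have : Function.support w ∩ Q.S = Q.S := by
      refine Set.inter_eq_right.mpr fun x _ => ?_
      exact (hw0 x).ne'
    rw [this, Q.vol]
    exact pos_iff_ne_zero.mpr (vol_ne_zero Q)
  have hbavg : ∀ Q : Pool.Agent.Run7.h51.GC.Cube d,
      avg (fun x => ENNReal.ofReal (w x)) (cube Q.a Q.s) = ENNReal.ofReal (⨍ x in Q.S, w x) :=
    fun Q => avg_eq Q (hiS hw Q) h0
  -- the reverse Hölder inequality on each cube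
  have hRH : ∀ Q : Pool.Agent.Run7.h51.GC.Cube d,
      avg (fun x => ENNReal.ofReal (w x ^ p)) (cube Q.a Q.s) ≤
        ENNReal.ofReal (K ^ p * (⨍ x in Q.S, w x) ^ p) := by
    intro Q
    have h1 : avg (fun x => ENNReal.ofReal (w x) ^ p) (cube Q.a Q.s) ^ (1 / p) *
      (avg (fun x => ENNReal.ofReal (w x)) (cube Q.a Q.s))⁻¹ ≤ rh p w :=
      le_iSup_of_le Q.a (le_iSup_of_le Q.s (le_iSup_of_le Q.pos le_rfl))
    rw [hbavg Q, ← div_eq_mul_inv, hKr] at h1
    have h2 := (ENNReal.div_le_iff (by simpa using hbpos Q) ENNReal.ofReal_ne_top).mp h1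
    rw [← ENNReal.ofReal_mul hK0] at h2
    have h3 := ENNReal.rpow_le_rpow h2 hp0.le
    rw [← ENNReal.rpow_mul, one_div, inv_mul_cancel₀ hp0.ne', ENNReal.rpow_one,
      ENNReal.ofReal_rpow_of_nonneg (mul_nonneg hK0 (hbpos Q).le) hp0.le,
      Real.mul_rpow hK0 (hbpos Q).le] at h3
    simp only [hpw] at h3
    exact h3
  -- local integrability of `w ^ p`
  have hmeas : AEStronglyMeasurable w volume := hw.aestronglyMeasurable
  have hmeasp : AEStronglyMeasurable (fun x => w x ^ p) volume :=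
    (Real.continuous_rpow_const hp0.le).comp_aestronglyMeasurable hmeas
  have hintS : ∀ Q : Pool.Agent.Run7.h51.GC.Cube d,
      IntegrableOn (fun x => w x ^ p) Q.S volume := by
    intro Q
    refine ⟨hmeasp.restrict, ?_⟩
    rw [hasFiniteIntegral_iff_ofReal (Filter.Eventually.of_forall fun x =>
      Real.rpow_nonneg (h0 x) _)]
    have h := hRH Q
    rw [avg_S, ENNReal.div_le_iff (vol_ne_zero Q) ENNReal.ofReal_ne_top] at h
    exact lt_of_le_of_lt h (ENNReal.mul_lt_top ENNReal.ofReal_lt_top ENNReal.ofReal_lt_top)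
  have hv : LocallyIntegrable (fun x => w x ^ p) volume := by
    intro x
    let Q : Pool.Agent.Run7.h51.GC.Cube d := ⟨fun i => x i - 1, 2, by norm_num⟩
    refine ⟨Q.S, ?_, hintS Q⟩
    refine set_pi_mem_nhds Set.finite_univ fun i _ => ?_
    exact Ico_mem_nhds (by show x i - 1 < x i; linarith) (by show x i < x i - 1 + 2; linarith)
  have hApos : ∀ Q : Pool.Agent.Run7.h51.GC.Cube d, 0 ≤ ⨍ x in Q.S, w x ^ p := fun Q => by
    rw [setAverage_eq]
    exact smul_nonneg (by positivity) (integral_nonneg fun x => Real.rpow_nonneg (h0 x) _)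
  have hRHr : ∀ Q : Pool.Agent.Run7.h51.GC.Cube d,
      ⨍ x in Q.S, w x ^ p ≤ K ^ p * (⨍ x in Q.S, w x) ^ p := by
    intro Q
    have h := hRH Q
    rw [avg_eq Q (hintS Q) fun x => Real.rpow_nonneg (h0 x) _] at h
    exact (ENNReal.ofReal_le_ofReal_iff (mul_nonneg (Real.rpow_nonneg hK0 _)
      (Real.rpow_nonneg (hbpos Q).le _))).mp h
  let Q : Pool.Agent.Run7.h51.GC.Cube d := ⟨a, s, hs⟩
  have hKp1 : 1 ≤ K ^ p := by
    have h1 := jensen hp hw hv h0 Q
    have h2 := h1.trans (hRHr Q)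
    have h3 : 0 < (⨍ x in Q.S, w x) ^ p := Real.rpow_pos_of_pos (hbpos Q) _
    by_contra hcon
    push Not at hcon
    nlinarith
  have hKpos : 0 < K := by
    rcases hK0.eq_or_lt with h | h
    · rw [← h, Real.zero_rpow hp0.ne'] at hKp1
      linarith
    · exact h
  set G : ℝ := (2 * (p / (p - 1))) ^ p with hG
  have hGe : (2 * p / (p - 1)) ^ p = G := by rw [hG, mul_div_assoc]
  have hG1 : 1 ≤ G := by
    apply Real.one_le_rpow _ hp0.le
    have : 1 ≤ p / (p - 1) := by rw [le_div_iff₀ hp1]; linarith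
    linarith
  rw [hGe] at hεc
  have hd1 : (1 : ℝ) ≤ 2 ^ d := one_le_pow₀ (by norm_num)
  have hδ : 0 ≤ ε / p := by positivity
  have hkey : (2 : ℝ) ^ d * (ε / p) * (K ^ p * G) ≤ 1 / 2 := by
    have h1 : ε * K ^ p ≤ p / (2 ^ (d + 1) * G) := by
      have := mul_le_mul_of_nonneg_right hεc (Real.rpow_nonneg hK0 p)
      rw [mul_assoc, ← Real.rpow_add hKpos, neg_add_cancel, Real.rpow_zero, mul_one] at this
      exact this
    have hG0 : 0 < G := by linarith
    rw [le_div_iff₀ (by positivity)] at h1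
    have : (2 : ℝ) ^ d * (ε / p) * (K ^ p * G) = (ε * K ^ p * (2 ^ (d + 1) * G)) / (2 * p) := by
      rw [pow_succ]; field_simp
    rw [this, div_le_iff₀ (by positivity)]
    linarith
  have hδ1 : ε / p ≤ 1 := by
    have h1 : ε / p ≤ (2 : ℝ) ^ d * (ε / p) * (K ^ p * G) := by
      have h2 : (1 : ℝ) ≤ 2 ^ d * (K ^ p * G) := by
        have h3 : 1 ≤ K ^ p * G := one_le_mul_of_one_le_of_one_le hKp1 hG1
        exact one_le_mul_of_one_le_of_one_le hd1 h3
      calc ε / p = ε / p * 1 := (mul_one _).symm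
        _ ≤ ε / p * (2 ^ d * (K ^ p * G)) := mul_le_mul_of_nonneg_left h2 hδ
        _ = _ := by ring
    linarith
  have hmain := Pool.Agent.Run7.h51.GC.main hp hw hv h0 (Real.rpow_nonneg hK0 p) hRHr hδ hδ1
    hkey Q
  have hexp : ∀ x, ENNReal.ofReal (w x) ^ (p + ε) =
      ENNReal.ofReal ((w x ^ p) ^ (1 + ε / p)) := by
    intro x
    rw [← Real.rpow_mul (h0 x), ENNReal.ofReal_rpow_of_nonneg (h0 x) (by positivity)]
    congr 2
    field_simp
  calc avg (fun x => ENNReal.ofReal (w x) ^ (p + ε)) (cube a s)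
      = (∫⁻ x in Q.S, ENNReal.ofReal ((w x ^ p) ^ (1 + ε / p))) / ENNReal.ofReal (Q.s ^ d) := by
        rw [show cube a s = cube Q.a Q.s from rfl, avg_S]
        simp only [hexp]
    _ ≤ ENNReal.ofReal (Q.s ^ d * (2 * (⨍ x in Q.S, w x ^ p) ^ (1 + ε / p))) /
          ENNReal.ofReal (Q.s ^ d) := ENNReal.div_le_div_right hmain _
    _ = ENNReal.ofReal (2 * (⨍ x in Q.S, w x ^ p) ^ (1 + ε / p)) := by
        rw [← ENNReal.ofReal_div_of_pos (pow_pos Q.pos d)]
        congr 1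
        have := (pow_pos Q.pos d).ne'
        field_simp
    _ ≤ ENNReal.ofReal (2 * (K ^ (p + ε) * (⨍ x in Q.S, w x) ^ (p + ε))) := by
        apply ENNReal.ofReal_le_ofReal
        have h1 := Real.rpow_le_rpow (hApos Q) (hRHr Q) (show 0 ≤ 1 + ε / p by positivity)
        have h2 : (K ^ p * (⨍ x in Q.S, w x) ^ p) ^ (1 + ε / p) =
            K ^ (p + ε) * (⨍ x in Q.S, w x) ^ (p + ε) := by
          rw [← Real.mul_rpow hK0 (hbpos Q).le, ← Real.mul_rpow hK0 (hbpos Q).le,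
            ← Real.rpow_mul (mul_nonneg hK0 (hbpos Q).le)]
          congr 1
          field_simp
        rw [h2] at h1
        linarith
    _ = 2 * rh p w ^ (p + ε) * avg (fun x => ENNReal.ofReal (w x)) (cube a s) ^ (p + ε) := by
        rw [show cube a s = cube Q.a Q.s from rfl, hbavg Q, hKr,
          ENNReal.ofReal_rpow_of_nonneg hK0 (by positivity),
          ENNReal.ofReal_rpow_of_nonneg (hbpos Q).le (by positivity),
          ENNReal.ofReal_mul (by norm_num), ENNReal.ofReal_mul (Real.rpow_nonneg hK0 _),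
          ENNReal.ofReal_ofNat, mul_assoc]

end Pool.Agent.Results.MP_edcda5_an.ExplicitGehring
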